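import Pool.Agent.GeoThick.Assembly
import Pool.Agent.GeoThick.Degree

/-!
# Maximum degree of regular graphs with given geometric thickness

For every `t ≥ 1` the largest `k` such that there is a `k`-regular finite simple graph of
geometric thickness exactly `t` is `6 t - 1`.

The extremal graph: vertices `ZMod N × {0, …, 8 t - 1}`, drawn on `8 t` concentric circles of
radii `N / (2 π) + i`; for `N → ∞` the picture converges locally to an integer strip, in which the
`t` classes of edges are (sheared) ladders of columns together with monotone staircases.
The upper bound is the elementary edge bound `e < 3 n` for plane straight-line graphs.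
-/

namespace Pool.Agent.Results.MP_10c741_co.MaxDegree

open Pool.Agent.GeoThick

theorem result : ∀ t : ℕ, 1 ≤ t →
    IsGreatest {k : ℕ | ∃ (n : ℕ) (G : SimpleGraph (Fin n)),
      (∀ v, (G.neighborSet v).ncard = k) ∧ geomThickness G = t} (6 * t - 1) :=
  main_of_degree (fun N t ht hN v => degree_Gr N t ht hN v)

end Pool.Agent.Results.MP_10c741_co.MaxDegree
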